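import Pool.Agent.Helper1.T5b.ZDefs
import Pool.Agent.Helper57.T5b.Last

/-!
# T5b, lines 6 and 7, Z8: the sizes
-/

set_option autoImplicit false

namespace Pool.Agent.Helper2.T5b

open Finset
open Pool.Agent.Helper5.ET hiding Key Mk AA Rp keysOf el ext
open Pool.Agent.Helper27.T4
open Pool.Agent.Helper27.T5b Pool.Agent.Helper37.T5b
open Pool.Agent.Helper30.T5b hiding pz_prime pz_inj
open Pool.Agent.Helper44.T5b
open Pool.Agent.Helper84.T5b Pool.Agent.Helper22.NEARb Pool.Agent.Helper1.T5b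

theorem pJ_le_BP (k s : ℕ) (i : JF) : pJ k s i ≤ BP k := by
  rcases i with f | i
  · exact pr_le_BP k f
  · refine Fin.cases ?_ (fun f => ?_) i
    · exact (buf_lt_BP k).le
    · exact pz_le k (s + 1) f

theorem card_JF : (univ : Finset JF).card = 7 := by
  rw [card_univ]
  simp [JF]

theorem CJ_le (k s : ℕ) : CJ k s ≤ (2 * BP k) ^ 7 := by
  unfold CJ
  rw [← card_JF]
  apply Finset.prod_le_pow_card
  intro i _
  have := pJ_le_BP k s i
  omega

theorem IJ_le_pow (m k : ℕ) {l' l : ℕ} (h : l' ≤ l) : IJ m k l l' ≤ (BP k ^ 7) ^ l := by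
  unfold IJ
  rw [← pow_mul, mul_comm 7 l, pow_mul, ← card_JF]
  apply Finset.prod_le_pow_card
  intro i _
  have hB : 0 < BP k := BP_pos k
  refine (Nat.pow_le_pow_left (pJ_le_BP k _ i) _).trans (Nat.pow_le_pow_right hB ?_)
  have hc : ∀ g : Fin 3 ⊕ Option (ℕ × Fin 3),
      (ct (ins m k) own (ex m k) g l - ct (ins m k) own (ex m k) g l') / 2 ≤ l := by
    intro g
    have h1 := ct_sub (ins := ins m k) (mo := own) (ex := ex m k) g h
    have h2 := card_filter_le (Ico l' l) (fun i => ow (ins m k) own (ex m k) i = g)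
    rw [Nat.card_Ico] at h2
    omega
  rcases i with f | i
  · exact hc (Sum.inl f)
  · refine Fin.cases ?_ (fun f => ?_) i
    · exact hc (Sum.inr none)
    · exact hc (Sum.inr (some (sL m k l + 1, f)))

/-- **Z8** -/
theorem sizeZS {m k : ℕ} (hm : 0 < m) : SizeZS m k := by
  obtain ⟨l0, h0⟩ := exists_late (k := k) hm 0 0
  have hB : 0 < BP k := BP_pos k
  have hR : 0 < RT m k k := RT_pos m k k
  obtain ⟨Q, hQ⟩ : ∃ Q : ℕ, Q = 35 * RT m k k * BP k + (2 * BP k) ^ 7 * BP k ^ 7 := ⟨_, rfl⟩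
  have hexp : ∀ l n : ℕ, n ≤ Q ^ l → (n : ℝ) ≤ Real.exp (Q * l) := by
    intro l n hn
    have h1 : (n : ℝ) ≤ (Q : ℝ) ^ l := by exact_mod_cast hn
    refine h1.trans ?_
    rw [mul_comm, Real.exp_nat_mul]
    refine pow_le_pow_left₀ (Nat.cast_nonneg _) ?_ _
    have := Real.add_one_le_exp (Q : ℝ)
    linarith
  refine ⟨l0 + 1, Q, fun l hl => ⟨?_, ?_, fun l' hl' _ => ?_⟩⟩
  · apply hexp
    have h1 := NL_le_pow m k l
    have h2 : 1 ≤ RT m k k * BP k ^ l := Nat.mul_pos hR (pow_pos hB _)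
    have h3 : 34 * NL m k l + 1 ≤ 35 * RT m k k * BP k ^ l := by
      calc 34 * NL m k l + 1 ≤ 34 * (RT m k k * BP k ^ l) + RT m k k * BP k ^ l :=
            Nat.add_le_add (Nat.mul_le_mul_left _ h1) h2
        _ = _ := by ring
    have h4 : 35 * RT m k k ≤ (35 * RT m k k) ^ l :=
      Nat.le_self_pow (by omega) _
    calc 34 * NL m k l + 1 ≤ 35 * RT m k k * BP k ^ l := h3
      _ ≤ (35 * RT m k k) ^ l * BP k ^ l := Nat.mul_le_mul_right _ h4
      _ = (35 * RT m k k * BP k) ^ l := (mul_pow _ _ _).symm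
      _ ≤ Q ^ l := Nat.pow_le_pow_left (by omega) _
  · obtain ⟨-, a1, a2, -, -⟩ := h0 l (by omega)
    have hSS := SS_sv_succ_le' (k := k) hm a1 a2
    unfold wW
    rw [Nat.sub_zero]
    refine le_trans (SS_mono m (Nat.le_succ _)) (le_trans hSS ?_)
    exact Pool.Agent.Helper27.T5b.l1_le _ _
  · apply hexp
    have h1 := CJ_le k (sL m k l)
    have h2 := IJ_le_pow m k hl'
    have h4 : (2 * BP k) ^ 7 ≤ ((2 * BP k) ^ 7) ^ l := Nat.le_self_pow (by omega) _
    calc CJ k (sL m k l) * IJ m k l l' ≤ (2 * BP k) ^ 7 * (BP k ^ 7) ^ l := Nat.mul_le_mul h1 h2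
      _ ≤ ((2 * BP k) ^ 7) ^ l * (BP k ^ 7) ^ l := Nat.mul_le_mul_right _ h4
      _ = ((2 * BP k) ^ 7 * BP k ^ 7) ^ l := (mul_pow _ _ _).symm
      _ ≤ Q ^ l := Nat.pow_le_pow_left (by omega) _

end Pool.Agent.Helper2.T5b
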