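import Pool.Agent.Helper1.T5b.ZDefs
import Pool.Agent.Helper57.T5b.Last

/-!
# T5b, lines 6 and 7, Z7: the number of the sums and the exponents
-/

set_option autoImplicit false

namespace Pool.Agent.Helper2.T5b

open Finset
open Pool.Agent.Helper5.ET hiding Key Mk AA Rp keysOf el ext
open Pool.Agent.Helper27.T4
open Pool.Agent.Helper27.T5b Pool.Agent.Helper37.T5b
open Pool.Agent.Helper30.T5b hiding pz_prime pz_inj
open Pool.Agent.Helper84.T5b Pool.Agent.Helper22.NEARb Pool.Agent.Helper1.T5b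

/-- the windows of the first levels are almost as long as the index of the state -/
theorem le_wW {m k l i : ℕ} (hm : 0 < m) (h1 : bb 0 ≤ mL m k l) (h2 : kt m k ≤ era (mL m k l))
    (h3 : 1000 * l ≤ 1001 * mL m k l) (hi : i ≤ rL m k l) (hi3 : i ≤ 3) :
    (l : ℝ) ≤ 2 ^ 8 * (l : ℝ) ^ ((5 : ℝ) / m) * (wW m k l i : ℝ) := by
  have hb0 := bb_ge_pow 0
  have hy1 : 1 ≤ mL m k l := by omega
  have hyl : mL m k l ≤ l := Pool.Agent.Helper27.T5b.l1_le _ _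
  have hmr : (0 : ℝ) < m := by exact_mod_cast hm
  have hy1r : (1 : ℝ) ≤ ((mL m k l : ℕ) : ℝ) := by exact_mod_cast hy1
  have hylr : ((mL m k l : ℕ) : ℝ) ≤ (l : ℝ) := by exact_mod_cast hyl
  have hl0 : (0 : ℝ) ≤ (l : ℝ) := Nat.cast_nonneg _
  have h4 := le_rpow_mul_SS (m := m) (k := k) (i := i) hm h1 h2 (by
    unfold rL sL at hi
    omega)
  have h5 : (((mL m k l : ℕ) : ℝ)) ^ (((i : ℝ) + 2) / m) ≤ (l : ℝ) ^ ((5 : ℝ) / m) := by
    calc (((mL m k l : ℕ) : ℝ)) ^ (((i : ℝ) + 2) / m) ≤ (((mL m k l : ℕ) : ℝ)) ^ ((5 : ℝ) / m) := by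
          apply Real.rpow_le_rpow_of_exponent_le hy1r
          apply div_le_div_of_nonneg_right _ hmr.le
          have : (i : ℝ) ≤ 3 := by exact_mod_cast hi3
          linarith
      _ ≤ _ := Real.rpow_le_rpow (by linarith) hylr (by positivity)
  have h6 : (2 : ℝ) ^ (i + 4) ≤ 2 ^ 7 := pow_le_pow_right₀ (by norm_num) (by omega)
  have h7 : (SS m (sv m k (mL m k l) - i) : ℝ) = (wW m k l i : ℝ) := rfl
  have h8 : (l : ℝ) ≤ 2 * ((mL m k l : ℕ) : ℝ) := by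
    have : l ≤ 2 * mL m k l := by omega
    exact_mod_cast this
  have h9 : (0 : ℝ) ≤ (wW m k l i : ℝ) := Nat.cast_nonneg _
  have h10 : (((mL m k l : ℕ) : ℝ)) ≤ 2 ^ 7 * (l : ℝ) ^ ((5 : ℝ) / m) * (wW m k l i : ℝ) := by
    refine h4.trans ?_
    rw [h7]
    refine mul_le_mul_of_nonneg_right ?_ h9
    exact mul_le_mul h6 h5 (by positivity) (by norm_num)
  calc (l : ℝ) ≤ 2 * ((mL m k l : ℕ) : ℝ) := h8
    _ ≤ 2 * (2 ^ 7 * (l : ℝ) ^ ((5 : ℝ) / m) * (wW m k l i : ℝ)) := by linarith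
    _ = _ := by ring

/-- powers of the number of the sums -/
theorem pow_aux {m l N C M : ℕ} {B : ℝ}
    (h : (N : ℝ) + 1 ≤ B * (l : ℝ) ^ ((5 : ℝ) / m)) :
    (((N + 1) ^ M * C : ℕ) : ℝ) ≤ (B ^ M * C) * (l : ℝ) ^ (((5 * M : ℕ) : ℝ) / (m : ℝ)) := by
  have hC0 : (0 : ℝ) ≤ (C : ℝ) := Nat.cast_nonneg _
  have h8 : ((N : ℝ) + 1) ^ M ≤ (B * (l : ℝ) ^ ((5 : ℝ) / m)) ^ M :=
    pow_le_pow_left₀ (by positivity) h _
  have h9 : ((l : ℝ) ^ ((5 : ℝ) / m)) ^ M = (l : ℝ) ^ (((5 * M : ℕ) : ℝ) / (m : ℝ)) := by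
    rw [← Real.rpow_natCast, ← Real.rpow_mul (by positivity)]
    congr 1
    push_cast
    ring
  rw [Nat.cast_mul, Nat.cast_pow, Nat.cast_add, Nat.cast_one]
  calc ((N : ℝ) + 1) ^ M * C ≤ (B * (l : ℝ) ^ ((5 : ℝ) / m)) ^ M * C :=
        mul_le_mul_of_nonneg_right h8 hC0
    _ = _ := by
        rw [mul_pow, h9]
        ring

/-- **Z7** from Z0 -/
theorem endS_of (hZ : ∀ m, 2 ≤ m → HzS m (m ^ 2)) : EndS := by
  refine ⟨5 * 6000, 2, fun m hm C => ?_⟩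
  have hm0 : 0 < m := by omega
  have hmr : (0 : ℝ) < m := by exact_mod_cast hm0
  obtain ⟨c0, l1, hc0, h1⟩ := Pool.Agent.Helper57.T5b.exists_le_SS_bL hm (m ^ 2)
  obtain ⟨l2, h2⟩ := exists_late (k := m ^ 2) hm0 0 0
  obtain ⟨K1, hK1⟩ := hZ m hm
  obtain ⟨B, hB⟩ : ∃ B : ℝ, B = 200 * 2 ^ 8 * C + 202 := ⟨_, rfl⟩
  have hB0 : 0 ≤ B := by
    rw [hB]
    positivity
  refine ⟨B ^ 6000 * C, c0, l1 + l2 + K1 + 1, mul_nonneg (pow_nonneg hB0 _) (Nat.cast_nonneg _),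
    hc0, fun l' l hK hD => ?_⟩
  obtain ⟨hlt, h3, h4, -, -, -, -⟩ := hK1 l' l (by omega) hD
  obtain ⟨-, a1, a2, -, a3⟩ := h2 l (by omega)
  have hW := le_wW hm0 a1 a2 a3 h4 h3
  have hWb : (SS m (bL m (m ^ 2) l) : ℝ) ≤ (wW m (m ^ 2) l (hz m (m ^ 2) l' l) : ℝ) := by
    have hb : bL m (m ^ 2) l ≤ sL m (m ^ 2) l - hz m (m ^ 2) l' l := by
      have hb1 := (dv_le_sv m (m ^ 2) (mL m (m ^ 2) l)).1
      unfold rL at h4
      unfold bL sL at h4 ⊢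
      omega
    have := SS_mono m hb
    unfold wW
    exact_mod_cast this
  refine ⟨(h1 l (by omega)).trans hWb, ?_⟩
  have hl1 : 1 ≤ l := by omega
  have hl1r : (1 : ℝ) ≤ (l : ℝ) := by exact_mod_cast hl1
  have hWpos : (0 : ℝ) < (wW m (m ^ 2) l (hz m (m ^ 2) l' l) : ℝ) := by
    have : 0 < wW m (m ^ 2) l (hz m (m ^ 2) l' l) := SS_pos _ _
    exact_mod_cast this
  generalize (wW m (m ^ 2) l (hz m (m ^ 2) l' l) : ℝ) = W at hW hWpos ⊢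
  have hx1 : 1 ≤ (l : ℝ) ^ ((5 : ℝ) / m) := Real.one_le_rpow hl1r (by positivity)
  have hC0 : (0 : ℝ) ≤ (C : ℝ) := Nat.cast_nonneg _
  have hlW : (l : ℝ) / W ≤ 2 ^ 8 * (l : ℝ) ^ ((5 : ℝ) / m) := by
    rw [div_le_iff₀ hWpos]
    exact hW
  obtain ⟨N, hN⟩ : ∃ N : ℕ, N = ⌈200 * ((C : ℝ) * (l / W)) + 200⌉₊ := ⟨_, rfl⟩
  have hN1 : 200 * ((C : ℝ) * (l / W)) + 200 ≤ (N : ℝ) := by
    rw [hN]
    exact Nat.le_ceil _
  have hN2 : (N : ℝ) < 200 * ((C : ℝ) * (l / W)) + 200 + 1 := by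
    rw [hN]
    exact Nat.ceil_lt_add_one (by positivity)
  have hq : (0 : ℝ) ≤ (C : ℝ) * (l / W) := by positivity
  refine ⟨N, ?_, ?_, ?_⟩
  · have : (1 : ℝ) ≤ (N : ℝ) := by linarith
    exact_mod_cast this
  · have h5 : (C : ℝ) * l = (C : ℝ) * (l / W) * W := by
      field_simp
    rw [h5]
    have h6 : (200 * ((C : ℝ) * (l / W)) + 200) * (W / 200) ≤ N * (W / 200) :=
      mul_le_mul_of_nonneg_right hN1 (by positivity)
    refine le_trans (le_of_eq ?_) h6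
    ring
  · have h5 : ((N : ℝ) + 1) ≤ B * (l : ℝ) ^ ((5 : ℝ) / m) := by
      generalize (l : ℝ) ^ ((5 : ℝ) / m) = x at hx1 hlW ⊢
      have h6 : (C : ℝ) * (l / W) ≤ C * (2 ^ 8 * x) := mul_le_mul_of_nonneg_left hlW hC0
      have h7 : (202 : ℝ) ≤ 202 * x := by linarith
      calc (N : ℝ) + 1 ≤ 200 * ((C : ℝ) * (l / W)) + 202 := by linarith
        _ ≤ 200 * (C * (2 ^ 8 * x)) + 202 * x := by linarith
        _ = _ := by
            rw [hB]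
            ring
    exact pow_aux h5

end Pool.Agent.Helper2.T5b
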