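import Pool.Agent.Helper22.NEARb.Stmts
import Pool.Agent.Helper22.NEARs.Defs
import Pool.Agent.Helper30.T5b.NLb
import Pool.Agent.Helper57.T5b.Last

/-!
# T5b, blocks NEARb and NEARs, lines Nb12 and S12: exponents of the case of few labels
-/

set_option autoImplicit false

namespace Pool.Agent.Helper2.T5b

open Finset
open Pool.Agent.Helper5.ET hiding Key Mk AA Rp keysOf el ext
open Pool.Agent.Helper27.T4
open Pool.Agent.Helper27.T5b Pool.Agent.Helper37.T5b
open Pool.Agent.Helper30.T5b hiding pz_prime pz_inj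
open Pool.Agent.Helper44.T5b
open Pool.Agent.Helper84.T5b Pool.Agent.Helper22.NEARb

/-- a family of a newborn triple owns at most one digit of a short interval -/
theorem newborn_small {m k : ℕ} (hm : 0 < m) {s l' l : ℕ} (h : l' ≤ l)
    (hs : l - l' ≤ Bq m (s + 1)) (f : Fin 3) :
    ct (ins m k) own (ex m k) (Sum.inr (some (s + 1, f))) l ≤
      ct (ins m k) own (ex m k) (Sum.inr (some (s + 1, f))) l' + 1 := by
  rw [ct_sub _ h]
  apply Nat.add_le_add_left
  rw [card_le_one]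
  intro a ha b hb
  rw [mem_filter, mem_Ico] at ha hb
  obtain ⟨⟨a1, a2⟩, a3⟩ := ha
  obtain ⟨⟨b1, b2⟩, b3⟩ := hb
  obtain ⟨-, n, -, -, a4, -⟩ := (ow_eq_some hm).1 a3
  obtain ⟨-, n', -, -, b4, -⟩ := (ow_eq_some hm).1 b3
  have key : ∀ x y : ℕ, x < y → gi m k (s + 1) x + Bq m (s + 1) ≤ gi m k (s + 1) y := by
    intro x y hxy
    unfold gi
    refine (beg_add_le _ _ _).trans ((beg_strictMono _).monotone ?_)
    unfold gy
    have : (x + 1) * Bq m (s + 1) ≤ y * Bq m (s + 1) := Nat.mul_le_mul_right _ hxy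
    have e : (x + 1) * Bq m (s + 1) = x * Bq m (s + 1) + Bq m (s + 1) := by ring
    omega
  rcases lt_trichotomy n n' with h1 | h1 | h1
  · have := key _ _ h1
    omega
  · rw [a4, b4, h1]
  · have := key _ _ h1
    omega

/-- the number of labels of a short pair -/
theorem IJ_le {m k : ℕ} (hm : 0 < m) {l' l : ℕ} (h : l' ≤ l)
    (hs : l - l' ≤ Bq m (sL m k l + 1)) : IJ m k l l' ≤ 2 ^ (140 * (l - l')) := by
  have h0 : IJ m k l l' ≤ (2 ^ (20 * (l - l'))) ^ (univ : Finset JF).card := by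
    unfold IJ
    apply Finset.prod_le_pow_card
    intro i _
    have small : ∀ p u : ℕ, p ≤ 2 ^ 20 → u ≤ l - l' → p ^ u ≤ 2 ^ (20 * (l - l')) := by
      intro p u hp hu
      calc p ^ u ≤ (2 ^ 20) ^ u := Nat.pow_le_pow_left hp u
        _ ≤ (2 ^ 20) ^ (l - l') := Nat.pow_le_pow_right (by norm_num) hu
        _ = _ := by rw [← pow_mul]
    have hc : ∀ g : Fin 3 ⊕ Option (ℕ × Fin 3),
        (ct (ins m k) own (ex m k) g l - ct (ins m k) own (ex m k) g l') / 2 ≤ l - l' := by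
      intro g
      have h1 := ct_sub (ins := ins m k) (mo := own) (ex := ex m k) g h
      have h2 := card_filter_le (Ico l' l) (fun i => ow (ins m k) own (ex m k) i = g)
      rw [Nat.card_Ico] at h2
      omega
    rcases i with f | i
    · refine small _ _ ?_ ?_
      · show pr f ≤ _
        have := pr_lt_buf f
        omega
      · exact hc (Sum.inl f)
    · refine Fin.cases ?_ (fun f => ?_) i
      · refine small _ _ ?_ ?_
        · show 1000039 ≤ _
          norm_num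
        · exact hc (Sum.inr none)
      · have h1 := newborn_small (k := k) hm h hs f
        have h2 : uJ m k l l' (Sum.inr (Fin.succ f)) = 0 := by
          show (ct (ins m k) own (ex m k) (Sum.inr (some (sL m k l + 1, f))) l -
            ct (ins m k) own (ex m k) (Sum.inr (some (sL m k l + 1, f))) l') / 2 = 0
          omega
        rw [h2, pow_zero]
        exact Nat.one_le_two_pow
  have h1 : (univ : Finset JF).card = 7 := by
    rw [card_univ]
    simp [JF]
  rw [h1, ← pow_mul] at h0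
  have e : 20 * (l - l') * 7 = 140 * (l - l') := by ring
  rwa [e] at h0

/-- the common core of the lines Nb12 and S12 -/
theorem num_small_core {m : ℕ} (hm : 2 ≤ m) (C c : ℕ) : ∃ (C1 : ℝ) (K0 : ℕ), 0 ≤ C1 ∧
    ∀ l' l, K0 ≤ l' → l' ≤ l → l - l' < aa m (sL m (m ^ 2) l) / m + c →
      ((IJ m (m ^ 2) l l' * (C * SS m (bL m (m ^ 2) l)) : ℕ) : ℝ) ≤
        C1 * (l : ℝ) ^ (((141 : ℕ) : ℝ) / (m : ℝ)) := by
  have hm0 : 0 < m := by omega
  obtain ⟨l1, h1⟩ := Pool.Agent.Helper57.T5b.exists_SS_bL_le hm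
  obtain ⟨l2, h2⟩ := exists_late (k := m ^ 2) hm0 0 0
  obtain ⟨l3, h3⟩ := exists_bL hm0 (m ^ 2) (c * m)
  refine ⟨2 ^ (140 * c) * C, l1 + l2 + l3 + 1, by positivity, fun l' l hK hl hS => ?_⟩
  have hl1 : 1 ≤ l := by omega
  obtain ⟨-, a1, a2, -, -⟩ := h2 l (by omega)
  have hSS := SS_sv_succ_le' (k := m ^ 2) hm0 a1 a2
  have hSl : SS m (sL m (m ^ 2) l) ≤ l := by
    refine le_trans (SS_mono m (Nat.le_succ _)) (le_trans hSS ?_)
    exact Pool.Agent.Helper27.T5b.l1_le _ _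
  have hb3 := (h3 l (by omega)).2
  have hbs : bL m (m ^ 2) l ≤ sL m (m ^ 2) l := by
    have := (dv_le_sv m (m ^ 2) (mL m (m ^ 2) l)).1
    unfold bL sL
    omega
  generalize hs : sL m (m ^ 2) l = s at *
  have hc : c ≤ aa m s / m := by
    rw [Nat.le_div_iff_mul_le hm0]
    have := aa_ge hm0 s
    omega
  have hB : l - l' ≤ Bq m (sL m (m ^ 2) l + 1) := by
    rw [hs, Bq_eq]
    have h4 : aa m s / m < 2 ^ (aa m s / m) := Nat.lt_two_pow_self
    have h5 : 2 * 2 ^ (aa m s / m) ≤ 2 ^ (11 + aa m s / m + aa m s / (4 * m ^ 2)) := by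
      rw [← pow_succ']
      apply Nat.pow_le_pow_right (by norm_num)
      generalize aa m s / (4 * m ^ 2) = z
      generalize aa m s / m = z'
      omega
    omega
  have hI := IJ_le hm0 hl hB
  have hI2 : IJ m (m ^ 2) l l' ≤ 2 ^ (140 * c) * (2 ^ (aa m s / m)) ^ 140 := by
    refine hI.trans ?_
    rw [← pow_mul, ← pow_add]
    exact Nat.pow_le_pow_right (by norm_num) (by omega)
  have hmr : (0 : ℝ) < m := by exact_mod_cast hm0
  have hl0 : (0 : ℝ) < (l : ℝ) := by exact_mod_cast hl1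
  have hx : ((2 : ℝ) ^ (aa m s / m)) ≤ (l : ℝ) ^ ((1 : ℝ) / m) := by
    have h6 : ((2 : ℝ) ^ (aa m s / m)) ^ m ≤ l := by
      rw [← pow_mul]
      have h7 : 2 ^ (aa m s / m * m) ≤ l := by
        refine le_trans (Nat.pow_le_pow_right (by norm_num) (Nat.div_mul_le_self _ _)) hSl
      exact_mod_cast h7
    have h8 : (2 : ℝ) ^ (aa m s / m) = (((2 : ℝ) ^ (aa m s / m)) ^ m) ^ ((1 : ℝ) / m) := by
      rw [← Real.rpow_natCast _ m, ← Real.rpow_mul (by positivity), mul_one_div_cancel hmr.ne',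
        Real.rpow_one]
    rw [h8]
    exact Real.rpow_le_rpow (by positivity) h6 (by positivity)
  have h9 := h1 l (by omega)
  have e1 : (l : ℝ) ^ (((141 : ℕ) : ℝ) / (m : ℝ)) =
      ((l : ℝ) ^ ((1 : ℝ) / m)) ^ 140 * (l : ℝ) ^ ((1 : ℝ) / m) := by
    rw [← Real.rpow_natCast, ← Real.rpow_mul hl0.le, ← Real.rpow_add hl0]
    congr 1
    push_cast
    ring
  rw [e1]
  have hI3 : (IJ m (m ^ 2) l l' : ℝ) ≤ 2 ^ (140 * c) * ((l : ℝ) ^ ((1 : ℝ) / m)) ^ 140 := by
    have h10 : (IJ m (m ^ 2) l l' : ℝ) ≤ 2 ^ (140 * c) * ((2 : ℝ) ^ (aa m s / m)) ^ 140 := by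
      exact_mod_cast hI2
    refine h10.trans ?_
    gcongr
  push_cast
  calc (IJ m (m ^ 2) l l' : ℝ) * (C * SS m (bL m (m ^ 2) l))
      ≤ (2 ^ (140 * c) * ((l : ℝ) ^ ((1 : ℝ) / m)) ^ 140) *
        (C * (l : ℝ) ^ ((1 : ℝ) / m)) := by gcongr
    _ = _ := by ring

/-- **Nb12** -/
theorem numSmall : NumSmallS := by
  refine ⟨141, 2, fun m hm C c => ?_⟩
  obtain ⟨C1, K0, h0, h1⟩ := num_small_core hm C c
  exact ⟨C1, K0, h0, fun t l' l hK hP hS => h1 l' l hK hP.le hS⟩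

/-- **S12** -/
theorem numSmallSplit : Pool.Agent.Helper22.NEARs.NumSmallS := by
  refine ⟨141, 2, fun m hm C c => ?_⟩
  obtain ⟨C1, K0, h0, h1⟩ := num_small_core hm C c
  exact ⟨C1, K0, h0, fun t l' l hK hP hS => h1 l' l hK hP.le hS⟩

end Pool.Agent.Helper2.T5b
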